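import Pool.Agent.T2H62.SUa
import Pool.Agent.T2H62.SpM2

set_option autoImplicit false

/-!
# Upper bounds for the number of primes `n ^ 2 - 2` in almost all short intervals

For an individual interval `(N, N + X ^ h]` the sieve gives at most `(4 / h + δ)` times the conjectured number of
`n` with `n ^ 2 - 2` prime. Here the constant is `4 / t + δ` for all but at most `X ^ (2 t - h + ε)` of the
`N ≤ X`, for every `1 / 2 ≤ t < 1`: the constant is `8 / (1 + h) + δ` for almost all `N`, and `8 + δ` for all but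
`X ^ (1 - h + ε)` of them, however small `h > 0` is.
-/

namespace Pool.Agent.Results.MP_0b748d_nt.AlmostAllShortUpper

open Finset Filter Topology

/-- The number of the integers `n` in `(N, N + H]` such that `n ^ 2 - 2` is a prime, that is
`P_{-2}(N + H) - P_{-2}(N)`. -/
def primeCount (N H : ℕ) : ℕ := ((Ioc N (N + H)).filter (fun n : ℕ => (n ^ 2 - 2).Prime)).card

open Classical in
/-- **Primes `n ^ 2 - 2` in almost all short intervals.** There is `C > 0`, half of the product over the odd primes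
`p` of `1 - (2/p) / (p - 1)`, the constant of the question, such that for all `0 < h ≤ 1`, `1 / 2 ≤ t < 1` and
`δ, ε > 0` and all large `X` the inequality `P_{-2}(N + X ^ h) - P_{-2}(N) ≤ (4 / t + δ) C X ^ h / log X` holds for
all but at most `X ^ (2 t - h + ε)` of the integers `1 ≤ N ≤ X`. -/
theorem result : ∃ C : ℝ, 0 < C ∧
    Tendsto (fun x : ℕ => 1 / 2 * ∏ p ∈ (Finset.range (x + 1)).filter (fun p => p.Prime ∧ p ≠ 2),
      (1 - (jacobiSym 2 p : ℝ) / ((p : ℝ) - 1))) atTop (𝓝 C) ∧
    ∀ h t δ ε : ℝ, 0 < h → h ≤ 1 → 1 / 2 ≤ t → t < 1 → 0 < δ → 0 < ε →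
      ∀ᶠ X : ℕ in atTop, (((Icc 1 X).filter (fun N : ℕ =>
        (4 / t + δ) * (C * ((X : ℝ) ^ h / Real.log X)) <
          (primeCount N ⌊(X : ℝ) ^ h⌋₊ : ℝ))).card : ℝ) ≤ (X : ℝ) ^ (2 * t - h + ε) := by
  obtain ⟨L, hL, h1, h2⟩ := Pool.Agent.T2H62.SU.main (-2) Pool.Agent.T2H62.SpM2.ns2
  refine ⟨L / 2, by positivity, ?_, ?_⟩
  · have h3 := (h1.comp (tendsto_add_atTop_nat 1)).const_mul (1 / 2)
    rw [show (1 / 2 : ℝ) * L = L / 2 by ring] at h3
    refine h3.congr (fun x => ?_)
    simp only [Function.comp, Pool.Agent.Y781.JR.RR, neg_neg]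
  · intro h t δ ε a1 a2 a3 a4 a5 a6
    filter_upwards [h2 h t δ ε a1 a2 a3 a4 a5 a6] with X hX
    have key : ∀ N H : ℕ, primeCount N H = Pool.Agent.T2H62.SU.primesIn (-2) N H := by
      intro N H
      unfold primeCount Pool.Agent.T2H62.SU.primesIn
      congr 1
      apply filter_congr
      intro n _
      have e : ((n : ℤ) ^ 2 + (-2)).toNat = n ^ 2 - 2 := by
        have : ((n ^ 2 : ℕ) : ℤ) = (n : ℤ) ^ 2 := by push_cast; ring
        rw [← this]
        omega
      rw [e]
    simp only [key]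
    exact hX

end Pool.Agent.Results.MP_0b748d_nt.AlmostAllShortUpper
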