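import Pool.Agent.T2H62.RegM2

set_option autoImplicit false

/-!
# The integers `n` with `n ^ 2 - 2` almost prime are regularly distributed around most of them
-/

namespace Pool.Agent.Results.MP_0b748d_nt.RegularPoints

open Finset Filter

/-- the integers `n` such that `n ^ 2 - 2` has at most `r` prime factors, all of them at least `w` -/
def S (r : ℕ) (w : ℝ) : Set ℕ :=
  {n | ((n : ℤ) ^ 2 - 2).natAbs.primeFactorsList.length ≤ r ∧ ∀ p : ℕ, p.Prime → (p : ℤ) ∣ (n : ℤ) ^ 2 - 2 → w ≤ p}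

open Classical in
/-- The number of elements of `S` in `(a, b]`. -/
noncomputable def cnt (S : Set ℕ) (a b : ℕ) : ℕ := ((Finset.Ioc a b).filter (fun m => m ∈ S)).card

/-- All intervals `(m - s, m + t]` with `s, t ≤ Y` of length at least `L / c` contain the right order
of elements of `S`. -/
def RightOrder (S : Set ℕ) (L c : ℝ) (Y m : ℕ) : Prop :=
  ∀ s t : ℕ, s ≤ Y → t ≤ Y → L ≤ c * (s + t) →
    c * (s + t) / L ≤ cnt S (m - s) (m + t) ∧ (cnt S (m - s) (m + t) : ℝ) ≤ (s + t) / (c * L)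

/-- Up to `δ`, `S` has a constant density on both sides of `m` up to the distance `2 ^ j`. -/
def ConstantDensity (S : Set ℕ) (L c δ : ℝ) (m j : ℕ) : Prop :=
  ∃ lam : ℝ, c ≤ lam ∧ lam ≤ 1 / c ∧ ∀ s t : ℕ, s ≤ 2 ^ j → t ≤ 2 ^ j →
    |(cnt S (m - s) (m + t) : ℝ) - lam * (s + t) / L| ≤ δ * 2 ^ j / L

open Classical in
/-- the number of the scales `L ≤ 2 ^ j ≤ Y` without this property -/
noncomputable def badScales (S : Set ℕ) (L c δ : ℝ) (Y m : ℕ) : ℕ :=
  ((Finset.range (Nat.log 2 Y + 1)).filter (fun j => L ≤ (2 : ℝ) ^ j ∧ ¬ ConstantDensity S L c δ m j)).card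

/-- The elements of `S` that are not regular points of `S`. -/
def Irregular (S : Set ℕ) (L c δ : ℝ) (B Y : ℕ) : Set ℕ :=
  {m | m ∈ S ∧ ¬ (RightOrder S L c Y m ∧ badScales S L c δ Y m ≤ B)}

open Classical in
/-- the product over the primes `p ≤ y` of `1 - ρ(p) / p`, `ρ(p)` the number of the roots of `x ^ 2 - 2` modulo `p` -/
noncomputable def De (y : ℕ) : ℝ := ∏ p ∈ (Finset.range (y + 1)).filter Nat.Prime,
    (1 - (((Finset.range p).filter (fun m : ℕ => (p : ℤ) ∣ (m : ℤ) ^ 2 - 2)).card : ℝ) / p)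

open Classical in
/-- **Regular points of the set of the almost primes `n ^ 2 - 2`, in almost all very short intervals.** Let `r = 5`,
`1 / 2 ≤ t < 1`, `z = 2 t / 5`, or `r = 4`, `269 / 500 ≤ t < 1`, `z = t / 4`, or `r = 3`, `29 / 40 ≤ t < 1`,
`z = t / 4`. Let `0 < h ≤ t` and `ε > 0`. There is `r₁` such that for every `η > 0` there is `c > 0` such that for every
`δ > 0` there is `B` such that for all large `X` and all but at most `X ^ (2 t - h + ε)` of the integers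
`1 ≤ M ≤ X`: all but a proportion `η` of the integers `n` in `(M, M + X ^ h]` for which `n ^ 2 - 2` has at most `r`
prime factors, all of them at least `X ^ z`, are regular points of the set `S` of these integers, with the average
spacing `L = 1 / De (X ^ (1/r₁))`, which is of order `log X`: the elements of `S` in all intervals of length between
`L / c` and `X ^ h` around `n` have the right order, and have constant density up to `δ` at all but `B` dyadic
scales. -/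
theorem result (r : ℕ) (t z : ℝ)
    (hpar : (r = 5 ∧ 1 / 2 ≤ t ∧ z = 2 / 5 * t) ∨ (r = 4 ∧ 269 / 500 ≤ t ∧ z = t / 4) ∨
      (r = 3 ∧ 29 / 40 ≤ t ∧ z = t / 4)) (ht : t < 1) (h ε : ℝ) (hh : 0 < h) (hht : h ≤ t) (hε : 0 < ε) :
    ∃ r₁ : ℕ, 2 ≤ r₁ ∧ ∀ η : ℝ, 0 < η → ∃ c : ℝ, 0 < c ∧ ∀ δ : ℝ, 0 < δ → ∃ B : ℕ, ∀ᶠ X : ℕ in atTop,
      (((Icc 1 X).filter (fun M => η * (cnt (S r ((X : ℝ) ^ z)) M (M + ⌊(X : ℝ) ^ h⌋₊) : ℝ) <
        (cnt (Irregular (S r ((X : ℝ) ^ z)) (1 / De ⌊(X : ℝ) ^ (1 / (r₁ : ℝ))⌋₊) c δ B ⌊(X : ℝ) ^ h⌋₊) M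
          (M + ⌊(X : ℝ) ^ h⌋₊) : ℝ))).card : ℝ) ≤ (X : ℝ) ^ (2 * t - h + ε) :=
  Pool.Agent.T2H62.RegM2.reg r t z hpar ht h ε hh hht hε

end Pool.Agent.Results.MP_0b748d_nt.RegularPoints
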