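import Pool.Agent.T2H62.SpM2

set_option autoImplicit false

/-!
# The integers `n` such that `n ^ 2 - 2` has no small prime factor, in all short intervals

Their number has the asymptotics predicted by the constant of the question, and their spacings follow the Poisson
law, in all intervals of length at least `X ^ θ`, however small `θ > 0` is.
-/

namespace Pool.Agent.Results.MP_0b748d_nt.SpacingLaw

open Finset Filter Topology

/-- `n ^ 2 - 2` has no prime factor `≤ y` -/
def Rough (y n : ℕ) : Prop := ∀ p : ℕ, p.Prime → p ≤ y → ¬ (p : ℤ) ∣ (n : ℤ) ^ 2 - 2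

open Classical in
/-- the number of the `n` in `(u, u + Y]` with `Rough y n` for which fewer than `k` of the `T` integers before `n`
have this property -/
noncomputable def count (y k T u Y : ℕ) : ℕ :=
  ((Ioc u (u + Y)).filter (fun n => Rough y n ∧ ((Ico (n - T) n).filter (fun m => Rough y m)).card < k)).card

open Classical in
/-- the product over the primes `p ≤ y` of `1 - ρ(p) / p`, `ρ(p)` the number of the roots of `x ^ 2 - 2` modulo `p` -/
noncomputable def De (y : ℕ) : ℝ := ∏ p ∈ (Finset.range (y + 1)).filter Nat.Prime,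
    (1 - (((Finset.range p).filter (fun m : ℕ => (p : ℤ) ∣ (m : ℤ) ^ 2 - 2)).card : ℝ) / p)

/-- There is `C > 0`, half of the product over the odd primes of `1 - (2/p) / (p - 1)`, the constant of the question,
with `De y · log y → 2 C e^(-γ)`, and for all `θ, ε > 0`, `k₀` and `x₀` there is `r₀` such that for all `r ≥ r₀`, all
large `X`, `y = ⌊X ^ (1/r)⌋`, every interval `(u, u + Y]` with `Y ≥ X ^ θ` and all `k`, `T` with `k ≤ k₀` or
`T · De y ≤ x₀`: the number of the `n` in `(u, u + Y]` such that `n ^ 2 - 2` has no prime factor `≤ y` and that fewer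
than `k` of the `T` integers before `n` have this property is `Y · De y` times the probability that a Poisson variable
with mean `T · De y` is smaller than `k`, up to `ε · Y · De y`. (For `k = 1`, `T = 0` this is the number of all
these `n`.) -/
theorem result : (∃ C : ℝ, 0 < C ∧
    Tendsto (fun x : ℕ => 1 / 2 * ∏ p ∈ (Finset.range (x + 1)).filter (fun p => p.Prime ∧ p ≠ 2),
      (1 - (jacobiSym 2 p : ℝ) / ((p : ℝ) - 1))) atTop (𝓝 C) ∧
    Tendsto (fun y : ℕ => De y * Real.log y) atTop (𝓝 (2 * C * Real.exp (-Real.eulerMascheroniConstant)))) ∧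
    ∀ θ : ℝ, 0 < θ → ∀ (k₀ : ℕ) (x₀ ε : ℝ), 0 < ε → ∃ r₀ : ℕ, ∀ r : ℕ, r₀ ≤ r → ∀ᶠ X : ℕ in atTop,
      ∀ y : ℕ, y = ⌊(X : ℝ) ^ (1 / (r : ℝ))⌋₊ → ∀ u Y : ℕ, (X : ℝ) ^ θ ≤ Y →
        ∀ k T : ℕ, (k ≤ k₀ ∨ T * De y ≤ x₀) →
          |(count y k T u Y : ℝ) - Y * De y *
            ∑ j ∈ range k, Real.exp (-(T * De y)) * (T * De y) ^ j / j.factorial| ≤ ε * (Y * De y) := by
  have hDe : ∀ y : ℕ, De y = Pool.Agent.R490.Sg.De Pool.Agent.T2H62.SpM2.f2 y := fun y => rfl
  have hc : ∀ y k T u Y : ℕ, count y k T u Y = Pool.Agent.R490.Sg.Dk Pool.Agent.T2H62.SpM2.f2 y k T u Y :=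
    fun y k T u Y => rfl
  refine ⟨?_, ?_⟩
  · obtain ⟨L, hL, h1, h2⟩ := Pool.Agent.T2H62.SpM2.dens_lim
    refine ⟨L / 2, by positivity, ?_, ?_⟩
    · have h3 := (h1.comp (tendsto_add_atTop_nat 1)).const_mul (1 / 2)
      rw [show (1 / 2 : ℝ) * L = L / 2 by ring] at h3
      refine h3.congr (fun x => ?_)
      simp only [Function.comp, Pool.Agent.Y781.JR.RR, neg_neg]
    · rw [show 2 * (L / 2) = L by ring]
      exact h2
  · intro θ hθ k₀ x₀ ε hε
    obtain ⟨r₀, h0⟩ := Pool.Agent.T2H62.SpM2.law θ hθ k₀ x₀ ε hε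
    refine ⟨r₀, fun r hr => ?_⟩
    filter_upwards [h0 r hr] with X hX
    intro y hy u Y hY k T hT
    rw [hc, hDe]
    rw [hDe] at hT
    exact hX y hy u Y hY k T hT

end Pool.Agent.Results.MP_0b748d_nt.SpacingLaw
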